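import Pool.Agent.helper20.VVO.Spec2

/-!
# vvo:UPX (MP_069684_lc): unconditional pruning below the critical probability, all numbers of witnesses
-/

set_option autoImplicit false

open Filter Topology

namespace Pool.Agent.VVO

open Pool.Agent.PB Pool.Agent.ISO Pool.Agent.ISA

theorem UPX_pow {a b : ℕ} (h : a ≤ b) (n : ℕ) : n ^ a + a ≤ n ^ b + b := by
  rcases Nat.eq_zero_or_pos n with h0 | h0
  · subst h0
    rcases Nat.eq_zero_or_pos a with ha | ha
    · subst ha
      rcases Nat.eq_zero_or_pos b with hb | hb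
      · subst hb
        exact le_rfl
      · rw [zero_pow hb.ne']
        simp
        omega
    · rw [zero_pow ha.ne', zero_pow (by omega)]
      omega
  · exact add_le_add (Nat.pow_le_pow_right h0 h) h

theorem UPX_mono (hCIR : ISO.CIR_stmt) {n w : ℕ} {m : ℕ} {A : Set ℕ} {p : ℝ} {B B' : ℕ} {f : BF (n + w)} (h : B ≤ B')
    (hP : Prun m A p B f) : Prun m A p B' f := by
  obtain ⟨k, W, h1, h2, h3, h4, h5⟩ := hP
  exact ⟨k, W, h1, h2.trans h, fun i => hCIR.2.2.1 _ _ _ _ (h3 i) h, h4, h5⟩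

theorem UPX (hUPR : UPR_stmt) (hPB2 : ISA.PB2_stmt) (hTHA : ISA.THA_stmt) (hTRN : ISA.TRN_stmt) (hLIM : ISO.LIM_stmt)
    (hCIR : ISO.CIR_stmt) : UPX_stmt := by
  classical
  intro ε j m p hε hj hm hp
  set ε' : ℝ := min ε 1 with hε'
  have hε0 : 0 < ε' := lt_min hε one_pos
  have hε1 : ε' ≤ 1 := min_le_right _ _
  have h1A : (1 : ℕ) ∈ Set.Icc 1 j := ⟨le_rfl, hj⟩
  have hcr : ∀ n, 0 < crit (m n) (Set.Icc 1 j) := fun n => (hTHA (m n) (Set.Icc 1 j) (hm n) h1A).2.2.1
  have hp' : ∀ n, p n ≤ (1 - ε') * crit (m n) (Set.Icc 1 j) := fun n =>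
    (hp n).trans (mul_le_mul_of_nonneg_right (by linarith [min_le_left ε 1]) (hcr n).le)
  obtain ⟨M, hM⟩ := hUPR ε' j hε0 hε1 hj
  set M2 : ℕ := max M (max j 2) with hM2
  have hM2M : M ≤ M2 := le_max_left _ _
  have hM2j : j ≤ M2 := (le_max_left _ _).trans (le_max_right _ _)
  have hM22 : 2 ≤ M2 := (le_max_right _ _).trans (le_max_right _ _)
  have hHj : (0 : ℝ) < (harmonic j : ℝ) := by exact_mod_cast harmonic_pos (by omega)
  have hA1 : AllPrun (fun n => max (m n) M2) (fun _ => Set.Icc 1 j) (fun n => if M2 ≤ m n then p n else 0) := by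
    apply hM
    · intro n
      exact hM2M.trans (le_max_right _ _)
    · intro n
      show (if M2 ≤ m n then p n else 0) * Real.log ((max (m n) M2 : ℕ) : ℝ) ≤ (1 - ε') * (harmonic j : ℝ)
      by_cases hc : M2 ≤ m n
      · rw [if_pos hc, max_eq_left hc]
        have hmn : 1 ≤ m n := hm n
        have hlog : 0 ≤ Real.log (m n : ℝ) := Real.log_nonneg (by exact_mod_cast hmn)
        have hH : Real.log (m n : ℝ) ≤ (harmonic (m n) : ℝ) := by
          have h1 : Real.log ((m n + 1 : ℕ) : ℝ) ≤ (harmonic (m n) : ℝ) := log_add_one_le_harmonic (m n)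
          refine le_trans (Real.log_le_log (by exact_mod_cast hmn) ?_) h1
          push_cast
          linarith
        have hHm : (0 : ℝ) < (harmonic (m n) : ℝ) := by exact_mod_cast harmonic_pos (by omega)
        have h2 : crit (m n) (Set.Icc 1 j) ≤ (harmonic j : ℝ) / (harmonic (m n) : ℝ) := by
          rw [hTRN.2.1]
          exact hLIM.1 (m n) j hj (hM2j.trans hc)
        have h3 : crit (m n) (Set.Icc 1 j) * Real.log (m n : ℝ) ≤ (harmonic j : ℝ) := by
          calc crit (m n) (Set.Icc 1 j) * Real.log (m n : ℝ) ≤ (harmonic j : ℝ) / (harmonic (m n) : ℝ) * (harmonic (m n) : ℝ) :=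
                mul_le_mul h2 hH hlog (by positivity)
            _ = (harmonic j : ℝ) := by field_simp
        calc p n * Real.log (m n : ℝ) ≤ (1 - ε') * crit (m n) (Set.Icc 1 j) * Real.log (m n : ℝ) :=
              mul_le_mul_of_nonneg_right (hp' n) hlog
          _ = (1 - ε') * (crit (m n) (Set.Icc 1 j) * Real.log (m n : ℝ)) := by ring
          _ ≤ (1 - ε') * (harmonic j : ℝ) := mul_le_mul_of_nonneg_left h3 (by linarith)
      · rw [if_neg hc, zero_mul]
        exact mul_nonneg (by linarith) hHj.le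
  have hA2 : AllPrun (fun n => min (m n) M2) (fun _ => Set.Icc 1 j) p := by
    apply hPB2 ε' (fun n => min (m n) M2) (fun _ => Set.Icc 1 j) p M2 hε0
    · intro n
      exact le_min (hm n) (by omega)
    · intro n
      exact (min_le_right _ _).trans (Nat.le_add_left _ _)
    · intro n
      exact h1A
    · intro n
      refine (hp' n).trans (mul_le_mul_of_nonneg_left ?_ (by linarith))
      show crit (m n) (Set.Icc 1 j) ≤ crit (min (m n) M2) (Set.Icc 1 j)
      exact (hTHA (m n) (Set.Icc 1 j) (hm n) h1A).2.2.2.2.2 (min (m n) M2) (le_min (hm n) (by omega)) (min_le_left _ _)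
  intro w V c hV
  obtain ⟨c1, hc1⟩ := hA1 w V c hV
  obtain ⟨c2, hc2⟩ := hA2 w V c hV
  refine ⟨max c1 c2, fun n => ?_⟩
  by_cases hc : M2 ≤ m n
  · have h := hc1 n
    simp only [max_eq_left hc, if_pos hc] at h
    exact UPX_mono hCIR (UPX_pow (le_max_left _ _) n) h
  · have h := hc2 n
    simp only [min_eq_left (not_le.1 hc).le] at h
    exact UPX_mono hCIR (UPX_pow (le_max_right _ _) n) h

end Pool.Agent.VVO
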